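import Pool.Agent.W770.KP.Stm

/-! KP-CHNA: the dimension inequality behind `ChartNat`. -/

set_option autoImplicit false

open scoped Classical
open Pool.Agent.W770.KP

namespace Pool.Agent.W683.KP

theorem coeff_zero_shift {F σ : Type} [Field F] (z : σ → F) (P : MvPolynomial σ F) :
    (shift z P).coeff 0 = MvPolynomial.eval z P := by
  have h : (MvPolynomial.constantCoeff (σ := σ) (R := F)).comp
      (MvPolynomial.bind₁ (fun i => MvPolynomial.X i + MvPolynomial.C (z i)) :
        MvPolynomial σ F →ₐ[F] MvPolynomial σ F).toRingHom = MvPolynomial.eval z := by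
    apply MvPolynomial.ringHom_ext
    · intro r
      simp
    · intro i
      simp
  have h2 := RingHom.congr_fun h P
  rw [← h2]
  rfl

theorem key (hA : S_ILMA) (hB : S_ILMB) (m : ℕ) (hm : 0 < m) (F : Type) [Field F] [Fintype F]
    (Z : Finset (Fin m → F)) (e : ℕ) :
    ∃ (N : ℕ) (A : Fin N → MvPolynomial (Fin m) F), (∀ s, (A s).totalDegree ≤ e) ∧
      ((Z.card : ℝ) * (((e:ℝ) + 1) / (2 * (m:ℝ) * (Fintype.card F : ℝ))) ^ m ≤ (N : ℝ)) ∧
      ∀ c : Fin N → F, (∀ z ∈ Z, ∀ α : Fin m →₀ ℕ, α.degree * Fintype.card F ≤ e →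
        (shift z (lc A c)).coeff α = 0) → c = 0 := by
  rcases lt_or_ge e (m * Fintype.card F) with h | h
  · obtain ⟨N, A, h1, h2, h3⟩ := hA m hm F Z e h
    refine ⟨N, A, h1, ?_, ?_⟩
    · refine le_trans ?_ h2
      have hq : (0 : ℝ) < Fintype.card F := by exact_mod_cast Fintype.card_pos
      have hm' : (0 : ℝ) < m := by exact_mod_cast hm
      refine mul_le_mul_of_nonneg_left ?_ (by positivity)
      refine pow_le_pow_left₀ (by positivity) ?_ m
      refine div_le_div_of_nonneg_left (by positivity) (by positivity) ?_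
      nlinarith [mul_pos hm' hq]
    · intro c hc
      apply h3 c
      intro z hz
      rw [← coeff_zero_shift]
      exact hc z hz 0 (by simp)
  · exact hB m hm F Z e h

theorem dehom_lc {F : Type} [Field F] {m N : ℕ} (A : Fin N → MvPolynomial (Fin m) F)
    (B : Fin N → MvPolynomial (Fin (m+1)) F) (h : ∀ s, dehom (B s) = A s) (c : Fin N → F) :
    dehom (lc B c) = lc A c := by
  unfold lc
  have h1 : dehom (∑ s, MvPolynomial.C (c s) * B s) =
      ∑ s, dehom (MvPolynomial.C (c s) * B s) := by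
    unfold dehom
    rw [map_sum]
  rw [h1]
  refine Finset.sum_congr rfl fun s _ => ?_
  have h2 : dehom (MvPolynomial.C (c s) * B s) = MvPolynomial.C (c s) * dehom (B s) := by
    unfold dehom
    rw [map_mul, MvPolynomial.aeval_C]
    rfl
  rw [h2, h s]

theorem degree_cons {m : ℕ} (α : Fin m →₀ ℕ) : (Finsupp.cons 0 α).degree = α.degree := by
  rw [Finsupp.degree_eq_sum, Finsupp.degree_eq_sum, Fin.sum_univ_succ]
  simp

theorem chna : S_LL → S_ILMA → S_ILMB → S_CM → S_HOM → S_SH → S_TOP → S_CHNA := by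
  intro hLL hA hB hCM hHOM hSH hTOP m hm F _ _ g b I
  have hkey := fun e : ℕ => key hA hB m hm F ((Finset.univ : Finset (Fin m → F)).filter
    (fun y => 2 * e < ∑ t : F, g (b y + t • (Fin.cons 1 y : Fin (m+1) → F)))) e
  choose N A hdeg hN hinj using hkey
  choose B hBh hBd using fun e s => hHOM F m e (A e s) (hdeg e s)
  have hmain : ∑ e ∈ I, N e ≤ ∑ x : Fin (m+1) → F, (g x) ^ (m+1) := by
    by_contra hcon
    push Not at hcon
    have hcard : Fintype.card ((e : I) × Fin (N (e : ℕ))) = ∑ e ∈ I, N e := by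
      rw [Fintype.card_sigma]
      simp only [Fintype.card_fin]
      exact Finset.sum_coe_sort I N
    rw [← hcard] at hcon
    obtain ⟨c, hc0, hc⟩ := hCM F (m+1) (Nat.succ_pos m) g ((e : I) × Fin (N (e : ℕ)))
      (fun i => B (i.1 : ℕ) i.2) hcon
    obtain ⟨e, he0, he1, he2⟩ := hTOP F (m+1) I N B hBh c hc0
    apply he0
    apply hinj (e : ℕ)
    intro y hy α hα
    have hy2 := (Finset.mem_filter.1 hy).2
    have hv : (Fin.cons 1 y : Fin (m+1) → F) ≠ 0 := by
      intro h0
      have := congrFun h0 0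
      rw [Fin.cons_zero] at this
      exact one_ne_zero this
    have h5 := hLL F (m+1) (lc (fun i : ((e : I) × Fin (N (e : ℕ))) => B (i.1 : ℕ) i.2) c)
      (e : ℕ) he1 g (b y) (Fin.cons 1 y) hv (fun t α hα => hc _ α hα) hy2 (Finsupp.cons 0 α)
      (by rw [degree_cons]; exact hα)
    rw [he2, ← hSH, dehom_lc (A (e : ℕ)) (B (e : ℕ)) (hBd (e : ℕ))] at h5
    exact h5
  calc _ ≤ ∑ e ∈ I, (N e : ℝ) := Finset.sum_le_sum fun e _ => hN e
    _ = ((∑ e ∈ I, N e : ℕ) : ℝ) := by push_cast; rfl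
    _ ≤ ((∑ x : Fin (m+1) → F, (g x) ^ (m+1) : ℕ) : ℝ) := by exact_mod_cast hmain
    _ = _ := by push_cast; rfl

end Pool.Agent.W683.KP
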